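import Pool.Agent.Helper92.FR.GoalsC

/-!
# FR, packet PTF: the summand is computed in polynomial time
-/

namespace Pool.Agent.Helper38.FR

open Pool.Agent.Helper81.CC Pool.Agent.Bin Pool.Agent.Helper92.VP Pool.Agent.Helper92.FR

variable {α : Type} [ToData α]

@[fun_prop] theorem pt_dot {x y : α → List Qn} (hx : PolyTime x) (hy : PolyTime y) :
    PolyTime (fun a => dot (x a) (y a)) := by
  unfold dot
  apply PT_qsum
  apply PolyTime.zipWith _ hx hy
  fun_prop

@[fun_prop] theorem pt_invNat {n : α → ℕ} (hn : PolyTime n) :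
    PolyTime (fun a => invNat (n a)) := by
  unfold invNat
  fun_prop

@[fun_prop] theorem pt_qNat {n : α → ℕ} (hn : PolyTime n) :
    PolyTime (fun a => qNat (n a)) := by
  unfold qNat
  fun_prop

@[fun_prop] theorem pt_slackCols {S : α → List Qn} (hS : PolyTime S) :
    PolyTime (fun a => slackCols (S a)) := by
  unfold slackCols
  fun_prop

@[fun_prop] theorem pt_cols {D : α → Nin} (hD : PolyTime D) :
    PolyTime (fun a => cols (D a)) := by
  unfold cols
  fun_prop

@[fun_prop] theorem pt_nrow {D : α → Nin} (hD : PolyTime D) :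
    PolyTime (fun a => nrow (D a)) := by
  unfold nrow
  fun_prop

@[fun_prop] theorem pt_cpf {z : α → Cn} {k : α → ℕ} (hz : PolyTime z) (hk : PolyTime k) :
    PolyTime (fun a => cpf (z a) (k a)) := by
  unfold cpf
  fun_prop

@[fun_prop] theorem pt_cexpT {z : α → Cn} {K : α → ℕ} (hK : PolyTime K) (hz : PolyTime z) :
    PolyTime (fun a => cexpT (K a) (z a)) := by
  unfold cexpT
  fun_prop

@[fun_prop] theorem pt_qtil {P K : α → ℕ} {b : α → Qn} {z : α → Cn} (hP : PolyTime P)
    (hK : PolyTime K) (hb : PolyTime b) (hz : PolyTime z) :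
    PolyTime (fun a => qtil (P a) (K a) (b a) (z a)) := by
  unfold qtil
  fun_prop

@[fun_prop] theorem pt_mulv {T : α → List (List Qn)} {w : α → List Qn} (hT : PolyTime T)
    (hw : PolyTime w) : PolyTime (fun a => mulv (T a) (w a)) := by
  unfold mulv
  fun_prop

@[fun_prop] theorem pt_dig {W M n0 i : α → ℕ} (hW : PolyTime W) (hM : PolyTime M)
    (hn : PolyTime n0) (hi : PolyTime i) :
    PolyTime (fun a => dig (W a) (M a) (n0 a) (i a)) := by
  unfold dig
  have h := Pool.Agent.Helper3.DT.pt_cpw hW (b := fun a => 2 * M a + 1) (by fun_prop) hi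
  fun_prop

@[fun_prop] theorem pt_tvec {d W M H n0 : α → ℕ} (hd : PolyTime d) (hW : PolyTime W)
    (hM : PolyTime M) (hH : PolyTime H) (hn : PolyTime n0) :
    PolyTime (fun a => tvec (d a) (W a) (M a) (H a) (n0 a)) := by
  unfold tvec
  fun_prop

@[fun_prop] theorem pt_wtl {M n : α → ℕ} (hM : PolyTime M) (hn : PolyTime n) :
    PolyTime (fun a => wtl (M a) (n a)) := by
  unfold wtl
  fun_prop

@[fun_prop] theorem pt_wgt {d W M n0 : α → ℕ} (hd : PolyTime d) (hW : PolyTime W)
    (hM : PolyTime M) (hn : PolyTime n0) :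
    PolyTime (fun a => wgt (d a) (W a) (M a) (n0 a)) := by
  unfold wgt
  fun_prop

@[fun_prop] theorem pt_eex {D : α → Nin} {lam : α → List Qn} (hD : PolyTime D)
    (hl : PolyTime lam) : PolyTime (fun a => eex (D a) (lam a)) := by
  unfold eex
  fun_prop

@[fun_prop] theorem pt_psi {D : α → Nin} {lam t : α → List Qn} {T : α → List (List Qn)}
    (hD : PolyTime D) (hl : PolyTime lam) (hT : PolyTime T) (ht : PolyTime t) :
    PolyTime (fun a => psi (D a) (lam a) (T a) (t a)) := by
  unfold psi
  fun_prop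

@[fun_prop] theorem pt_zet {lam t w : α → List Qn} {T : α → List (List Qn)}
    (hl : PolyTime lam) (hT : PolyTime T) (ht : PolyTime t) (hw : PolyTime w) :
    PolyTime (fun a => zet (lam a) (T a) (t a) (w a)) := by
  unfold zet
  fun_prop

theorem ptf : PtfStmt := by
  intro α _ D lam T P K KE W M H n0 hD hlam hT hP hK hKE hW hM hH hn0
  unfold smd
  fun_prop

end Pool.Agent.Helper38.FR
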