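import Pool.Agent.Helper92.FR.GoalsA

/-! # FR-CHF: the exact formula -/

namespace Pool.Agent.Helper38.FR

open MeasureTheory Finset Pool.Agent.Helper92.FR

noncomputable section

variable {N d : ℕ}

/-- The exponential sum `∑ i, h k_i Y_i` in terms of `z`. -/
theorem exp_lin (C : Fin N → Fin d → ℝ) (S e : Fin d → ℝ) (T : Matrix (Fin d) (Fin d) ℝ) (h : ℝ)
    (k : Fin d → ℤ) (z : Fin N ⊕ Fin d → ℝ) :
    ∑ i, h * k i * YY C S e T z i =
      (∑ j, sjk C S T h k j * z j) - ∑ i, h * k i * ∑ i', T i i' * e i' := by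
  unfold YY sjk
  have h1 : ∀ i, h * (k i : ℝ) * ∑ i', T i i' * ((∑ j, col C S j i' * z j) - e i') =
      (∑ j, (h * k i * ∑ i', T i i' * col C S j i') * z j) -
        h * k i * ∑ i', T i i' * e i' := by
    intro i
    have h2 : ∑ i', T i i' * ((∑ j, col C S j i' * z j) - e i') =
        (∑ j, (∑ i', T i i' * col C S j i') * z j) - ∑ i', T i i' * e i' := by
      simp_rw [mul_sub, Finset.sum_sub_distrib, Finset.mul_sum, Finset.sum_mul]
      rw [Finset.sum_comm]
      simp_rw [mul_assoc]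
    rw [h2, mul_sub, Finset.mul_sum]
    simp_rw [mul_assoc]
  simp_rw [h1, Finset.sum_sub_distrib, Finset.sum_mul]
  rw [Finset.sum_comm]

theorem TH_complex (hker : KerStmt) (h : ℝ) (M : ℕ) (hh : 0 < h) (hM : 1 ≤ M) (y : Fin d → ℝ) :
    ((TH h M y : ℝ) : ℂ) = ((h / (2 * Real.pi)) ^ d : ℝ) * ∑ k ∈ grid M,
      ((∏ i, wt M (k i) : ℝ) : ℂ) * Complex.exp (Complex.I * ((∑ i, h * k i * y i : ℝ) : ℂ)) := by
  have h5 := (hker h M hh hM).2.2.2.2
  unfold TH
  rw [Complex.ofReal_prod]
  simp_rw [h5]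
  rw [Finset.prod_mul_distrib, Finset.prod_const, Finset.card_univ, Fintype.card_fin,
    Finset.prod_univ_sum]
  congr 1
  · push_cast; rfl
  · apply Finset.sum_congr rfl
    intro k _
    rw [Finset.prod_mul_distrib, ← Complex.exp_sum, Complex.ofReal_prod]
    congr 2
    rw [Complex.ofReal_sum, Finset.mul_sum]
    apply Finset.sum_congr rfl
    intro i _
    push_cast
    ring

theorem integral_exp (htr0 : Tr0Stmt) (htrf : TrfStmt) (C : Fin N → Fin d → ℝ)
    (S e lam : Fin d → ℝ) (T : Matrix (Fin d) (Fin d) ℝ) (h : ℝ) (k : Fin d → ℤ) :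
    (∫ z, Complex.exp (Complex.I * ((∑ i, h * k i * YY C S e T z i : ℝ) : ℂ)) ∂(pr C S lam)) *
      (((∏ j, MM (aa C S lam j)) * Real.exp (-∑ i, lam i * e i) : ℝ) : ℂ) =
    Complex.exp ((Eex C S e lam : ℂ) + Complex.I * (Psi C S e lam T h k : ℂ)) *
      ∏ j, QQ (zeta C S lam T h k j) := by
  haveI : ∀ j, IsProbabilityMeasure (tl (aa C S lam j)) := fun j => (htr0 _).2.1
  have e1 : ∀ z : Fin N ⊕ Fin d → ℝ,
      Complex.exp (Complex.I * ((∑ i, h * k i * YY C S e T z i : ℝ) : ℂ)) =
      Complex.exp (-Complex.I * ((∑ i, h * k i * ∑ i', T i i' * e i' : ℝ) : ℂ)) *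
        ∏ j, Complex.exp (Complex.I * (sjk C S T h k j : ℂ) * (z j : ℂ)) := by
    intro z
    rw [exp_lin, ← Complex.exp_sum, ← Complex.exp_add]
    congr 1
    push_cast
    rw [mul_sub, Finset.mul_sum]
    simp_rw [← mul_assoc]
    ring
  simp_rw [e1]
  rw [integral_const_mul]
  have e2 : (∫ z, ∏ j, Complex.exp (Complex.I * (sjk C S T h k j : ℂ) * (z j : ℂ)) ∂(pr C S lam)) =
      ∏ j, ∫ x, Complex.exp (Complex.I * (sjk C S T h k j : ℂ) * (x : ℂ)) ∂(tl (aa C S lam j)) := by
    unfold pr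
    exact integral_fintype_prod_eq_prod
      (fun j (x : ℝ) => Complex.exp (Complex.I * (sjk C S T h k j : ℂ) * (x : ℂ)))
  rw [e2]
  have e3 : ∀ j, (MM (aa C S lam j) : ℂ) *
      (∫ x, Complex.exp (Complex.I * (sjk C S T h k j : ℂ) * (x : ℂ)) ∂(tl (aa C S lam j))) =
      Complex.exp (((max (aa C S lam j) 0 : ℝ) : ℂ) +
        Complex.I * ((if 0 < aa C S lam j then sjk C S T h k j else 0 : ℝ) : ℂ)) *
        QQ (zeta C S lam T h k j) := by
    intro j
    rw [htrf]
    unfold zeta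
    split_ifs with hj
    · rw [max_eq_left hj.le, abs_of_pos hj]
    · rw [max_eq_right (not_lt.1 hj)]
      simp only [Complex.ofReal_zero, mul_zero, add_zero, Complex.exp_zero, one_mul]
      congr 1
      push_cast
      ring
  rw [Complex.ofReal_mul, Complex.ofReal_prod]
  calc Complex.exp (-Complex.I * ((∑ i, h * k i * ∑ i', T i i' * e i' : ℝ) : ℂ)) *
        (∏ j, ∫ x, Complex.exp (Complex.I * (sjk C S T h k j : ℂ) * (x : ℂ))
          ∂(tl (aa C S lam j))) *
        ((∏ j, (MM (aa C S lam j) : ℂ)) * ((Real.exp (-∑ i, lam i * e i) : ℝ) : ℂ))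
      = Complex.exp (-Complex.I * ((∑ i, h * k i * ∑ i', T i i' * e i' : ℝ) : ℂ)) *
        ((Real.exp (-∑ i, lam i * e i) : ℝ) : ℂ) *
        ∏ j, ((MM (aa C S lam j) : ℂ) *
          ∫ x, Complex.exp (Complex.I * (sjk C S T h k j : ℂ) * (x : ℂ))
            ∂(tl (aa C S lam j))) := by
        rw [Finset.prod_mul_distrib]; ring
    _ = Complex.exp (-Complex.I * ((∑ i, h * k i * ∑ i', T i i' * e i' : ℝ) : ℂ)) *
        ((Real.exp (-∑ i, lam i * e i) : ℝ) : ℂ) *
        (Complex.exp (∑ j, (((max (aa C S lam j) 0 : ℝ) : ℂ) +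
        Complex.I * ((if 0 < aa C S lam j then sjk C S T h k j else 0 : ℝ) : ℂ))) *
        ∏ j, QQ (zeta C S lam T h k j)) := by
        simp_rw [e3]
        rw [Finset.prod_mul_distrib, ← Complex.exp_sum]
    _ = _ := by
        rw [← mul_assoc, Complex.ofReal_exp, ← Complex.exp_add, ← Complex.exp_add]
        congr 2
        unfold Eex Psi
        rw [Finset.sum_add_distrib, ← Finset.mul_sum]
        push_cast
        ring

theorem chf (htr0 : Tr0Stmt) (htrf : TrfStmt) (hker : KerStmt) : ChfStmt := by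
  intro N d C S e lam T h M hh hM
  haveI : ∀ j, IsProbabilityMeasure (tl (aa C S lam j)) := fun j => (htr0 _).2.1
  haveI : IsProbabilityMeasure (pr C S lam) := by unfold pr; infer_instance
  have hY : Continuous (YY C S e T) := by
    unfold YY
    fun_prop
  have hT : Continuous (TH h M : (Fin d → ℝ) → ℝ) := by
    unfold TH
    fun_prop
  rw [integral_map hY.aemeasurable hT.aestronglyMeasurable, ← integral_complex_ofReal]
  simp_rw [TH_complex hker h M hh hM]
  rw [integral_const_mul, integral_finset_sum]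
  · rw [mul_assoc, Finset.sum_mul]
    congr 1
    apply Finset.sum_congr rfl
    intro k _
    rw [integral_const_mul, mul_assoc, integral_exp htr0 htrf]
    rfl
  · intro k _
    apply Integrable.const_mul
    refine Integrable.of_bound (C := 1) ?_ ?_
    · apply Continuous.aestronglyMeasurable
      fun_prop
    · refine Filter.Eventually.of_forall fun z => ?_
      rw [mul_comm, Complex.norm_exp_ofReal_mul_I]

end

end Pool.Agent.Helper38.FR
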