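import Pool.Agent.Helper92.FR.GoalsS
import Pool.Agent.Helper92.FR.GoalsB
import Pool.Agent.Helper13.FR.NIN

/-! # FR-MKV: the box with the dense rows is the polyhedron -/

namespace Pool.Agent.Helper38.FR

open Pool.Agent.Helper81.CC Pool.Agent.Bin Pool.Agent.Helper92.VP Pool.Agent.Helper92.FR

theorem val_rco (r : List RQ × RQ) (j : ℕ) : Qn.val (rco r j) = coef r j :=
  Pool.Agent.Helper13.FR.val_ofRQ _

theorem qnz_rco (r : List RQ × RQ) (j : ℕ) : qnz (rco r j) = true ↔ coef r j ≠ 0 := by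
  rw [Pool.Agent.Helper13.FR.qnz_iff, val_rco]

theorem mem_nzl (n : ℕ) (r : List RQ × RQ) (j : ℕ) : j ∈ nzl n r ↔ j < n ∧ coef r j ≠ 0 := by
  unfold nzl
  rw [List.mem_filter, List.mem_range, qnz_rco]

theorem nodup_nzl (n : ℕ) (r : List RQ × RQ) : (nzl n r).Nodup := by
  unfold nzl
  exact List.Nodup.filter _ List.nodup_range

theorem nzl_length (n : ℕ) (r : List RQ × RQ) : (nzl n r).length = nnz n r := by
  classical
  unfold nnz
  rw [← List.toFinset_card_of_nodup (nodup_nzl n r), Set.ncard_eq_toFinset_card']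
  symm
  apply Finset.card_bij (fun (j : Fin n) _ => (j : ℕ))
  · intro j hj
    rw [Set.mem_toFinset, Set.mem_ofPred_eq] at hj
    rw [List.mem_toFinset, mem_nzl]
    exact ⟨j.2, hj⟩
  · intro a _ b _ h
    exact Fin.ext h
  · intro b hb
    rw [List.mem_toFinset, mem_nzl] at hb
    exact ⟨⟨b, hb.1⟩, by rw [Set.mem_toFinset, Set.mem_ofPred_eq]; exact hb.2, rfl⟩

theorem qmax_spec (l : List Qn) (h : l ≠ []) :
    qmax l ∈ l ∧ ∀ y ∈ l, Qn.val y ≤ Qn.val (qmax l) := by
  obtain ⟨x, hx, hm⟩ := Set.exists_max_image {x | x ∈ l} Qn.val (List.finite_toSet l)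
    (List.exists_mem_of_ne_nil l h)
  cases hf : l.find? (fun x => l.all fun y => Qn.le y x) with
  | none =>
    rw [List.find?_eq_none] at hf
    exact absurd (List.all_eq_true.2 fun y hy => (Qn.le_iff _ _).2 (hm y hy)) (hf x hx)
  | some z =>
    have h1 := List.find?_some hf
    have h2 := List.mem_of_find?_eq_some hf
    have h3 : qmax l = z := by unfold qmax; rw [hf]; rfl
    rw [h3]
    exact ⟨h2, fun y hy => (Qn.le_iff _ _).1 (List.all_eq_true.1 h1 y hy)⟩

theorem qmin_spec (l : List Qn) (h : l ≠ []) :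
    qmin l ∈ l ∧ ∀ y ∈ l, Qn.val (qmin l) ≤ Qn.val y := by
  obtain ⟨x, hx, hm⟩ := Set.exists_min_image {x | x ∈ l} Qn.val (List.finite_toSet l)
    (List.exists_mem_of_ne_nil l h)
  cases hf : l.find? (fun x => l.all fun y => Qn.le x y) with
  | none =>
    rw [List.find?_eq_none] at hf
    exact absurd (List.all_eq_true.2 fun y hy => (Qn.le_iff _ _).2 (hm y hy)) (hf x hx)
  | some z =>
    have h1 := List.find?_some hf
    have h2 := List.mem_of_find?_eq_some hf
    have h3 : qmin l = z := by unfold qmin; rw [hf]; rfl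
    rw [h3]
    exact ⟨h2, fun y hy => (Qn.le_iff _ _).1 (List.all_eq_true.1 h1 y hy)⟩

theorem qmax_le (l : List Qn) (h : l ≠ []) (t : ℝ) :
    Qn.val (qmax l) ≤ t ↔ ∀ y ∈ l, Qn.val y ≤ t :=
  ⟨fun ht y hy => ((qmax_spec l h).2 y hy).trans ht, fun ht => ht _ (qmax_spec l h).1⟩

theorem le_qmin (l : List Qn) (h : l ≠ []) (t : ℝ) :
    t ≤ Qn.val (qmin l) ↔ ∀ y ∈ l, t ≤ Qn.val y :=
  ⟨fun ht y hy => ht.trans ((qmin_spec l h).2 y hy), fun ht => ht _ (qmin_spec l h).1⟩

theorem val_ratio (r : List RQ × RQ) (j : ℕ) : Qn.val (ratio r j) = r.2.val / coef r j := by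
  unfold ratio
  rw [Qn.val_mul, Qn.val_inv, val_rco, Pool.Agent.Helper13.FR.val_ofRQ, div_eq_mul_inv]

theorem loS_le (S : Sys) (j : ℕ) (t : ℝ) : Qn.val (loS S j) ≤ t ↔
    -(2 : ℝ) ^ (4 * ssize S ^ 2) ≤ t ∧
      ∀ r ∈ S.2, (nzl S.1 r).length = 1 → 0 < coef r j → r.2.val / coef r j ≤ t := by
  unfold loS
  rw [qmax_le _ (List.cons_ne_nil _ _)]
  constructor
  · intro h
    refine ⟨?_, ?_⟩
    · have h1 := h _ List.mem_cons_self
      rw [Qn.val_neg, Qn.val_ofBN, BN.val_pow2] at h1
      push_cast at h1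
      exact h1
    · intro r hr h1 h2
      rw [← val_ratio]
      apply h
      apply List.mem_cons_of_mem
      rw [List.mem_map]
      refine ⟨r, ?_, rfl⟩
      rw [List.mem_filter]
      refine ⟨hr, ?_⟩
      rw [Bool.and_eq_true, Bool.and_eq_true, decide_eq_true_eq, qnz_rco, Qn.le_iff, val_rco,
        Qn.val_zero]
      exact ⟨h1, h2.ne', h2.le⟩
  · rintro ⟨h1, h2⟩ y hy
    rw [List.mem_cons] at hy
    rcases hy with rfl | hy
    · rw [Qn.val_neg, Qn.val_ofBN, BN.val_pow2]
      push_cast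
      exact h1
    · rw [List.mem_map] at hy
      obtain ⟨r, hr, rfl⟩ := hy
      rw [List.mem_filter, Bool.and_eq_true, Bool.and_eq_true, decide_eq_true_eq, qnz_rco,
        Qn.le_iff, val_rco, Qn.val_zero] at hr
      rw [val_ratio]
      exact h2 r hr.1 hr.2.1 (lt_of_le_of_ne hr.2.2.2 (Ne.symm hr.2.2.1))

theorem le_upS (S : Sys) (j : ℕ) (t : ℝ) : t ≤ Qn.val (upS S j) ↔
    t ≤ (2 : ℝ) ^ (4 * ssize S ^ 2) ∧
      ∀ r ∈ S.2, (nzl S.1 r).length = 1 → coef r j < 0 → t ≤ r.2.val / coef r j := by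
  unfold upS
  rw [le_qmin _ (List.cons_ne_nil _ _)]
  constructor
  · intro h
    refine ⟨?_, ?_⟩
    · have h1 := h _ List.mem_cons_self
      rw [Qn.val_ofBN, BN.val_pow2] at h1
      push_cast at h1
      exact h1
    · intro r hr h1 h2
      rw [← val_ratio]
      apply h
      apply List.mem_cons_of_mem
      rw [List.mem_map]
      refine ⟨r, ?_, rfl⟩
      rw [List.mem_filter]
      refine ⟨hr, ?_⟩
      rw [Bool.and_eq_true, Bool.and_eq_true, decide_eq_true_eq, qnz_rco, Qn.le_iff, val_rco,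
        Qn.val_zero]
      exact ⟨h1, h2.ne, h2.le⟩
  · rintro ⟨h1, h2⟩ y hy
    rw [List.mem_cons] at hy
    rcases hy with rfl | hy
    · rw [Qn.val_ofBN, BN.val_pow2]
      push_cast
      exact h1
    · rw [List.mem_map] at hy
      obtain ⟨r, hr, rfl⟩ := hy
      rw [List.mem_filter, Bool.and_eq_true, Bool.and_eq_true, decide_eq_true_eq, qnz_rco,
        Qn.le_iff, val_rco, Qn.val_zero] at hr
      rw [val_ratio]
      exact h2 r hr.1 hr.2.1 (lt_of_le_of_ne hr.2.2.2 hr.2.2.1)

theorem val_padRQ (k : ℕ) (x : RQ) : (padRQ k x).val = x.val := by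
  unfold padRQ RQ.val
  simp only [BN.val_mul, BN.val_pow2]
  push_cast
  rw [← mul_assoc, mul_div_mul_right]
  positivity

/-- A row without nonzero coefficients. -/
theorem sum_zero {n : ℕ} {r : List RQ × RQ} (h : (nzl n r).length = 0) (x : Fin n → ℝ) :
    ∑ j : Fin n, coef r j * x j = 0 := by
  apply Finset.sum_eq_zero
  intro j _
  have h1 : (j : ℕ) ∉ nzl n r := by
    rw [List.eq_nil_of_length_eq_zero h]
    exact List.not_mem_nil
  rw [mem_nzl] at h1
  push Not at h1
  rw [h1 j.2, zero_mul]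

/-- A row with one nonzero coefficient. -/
theorem sum_one {n : ℕ} {r : List RQ × RQ} (h : (nzl n r).length = 1) :
    ∃ j : Fin n, coef r j ≠ 0 ∧ (∀ i : Fin n, i ≠ j → coef r i = 0) ∧
      ∀ x : Fin n → ℝ, ∑ i : Fin n, coef r i * x i = coef r j * x j := by
  obtain ⟨a, ha⟩ := List.length_eq_one_iff.1 h
  have h1 : a ∈ nzl n r := by rw [ha]; exact List.mem_singleton_self a
  rw [mem_nzl] at h1
  have h2 : ∀ i : Fin n, i ≠ ⟨a, h1.1⟩ → coef r i = 0 := by
    intro i hi
    by_contra hc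
    have h3 : (i : ℕ) ∈ nzl n r := (mem_nzl n r i).2 ⟨i.2, hc⟩
    rw [ha, List.mem_singleton] at h3
    exact hi (Fin.ext h3)
  refine ⟨⟨a, h1.1⟩, h1.2, h2, ?_⟩
  intro x
  rw [Finset.sum_eq_single (⟨a, h1.1⟩ : Fin n)]
  · intro i _ hi
    rw [h2 i hi, zero_mul]
  · intro hc
    exact absurd (Finset.mem_univ _) hc

/-- The points of the polyhedron of moderate size are the points of the box which satisfy the dense
rows. -/
theorem core (S : Sys) (hb : bad0 S = false) (x : Fin S.1 → ℝ) :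
    ((∀ j : Fin S.1, Qn.val (loS S j) ≤ x j ∧ x j ≤ Qn.val (upS S j)) ∧
      ∀ r ∈ S.2.filter (fun r => decide (2 ≤ (nzl S.1 r).length)),
        r.2.val ≤ ∑ j : Fin S.1, coef r j * x j) ↔
    (x ∈ sol S ∧ ∀ j, |x j| ≤ 2 ^ (4 * ssize S ^ 2)) := by
  constructor
  · rintro ⟨h1, h2⟩
    refine ⟨?_, ?_⟩
    · intro r hr
      by_cases h0 : (nzl S.1 r).length = 0
      · rw [sum_zero h0]
        unfold bad0 at hb
        rw [List.any_eq_false] at hb
        have h3 := hb r hr
        rw [Bool.and_eq_true, decide_eq_true_eq, Bool.not_eq_true', not_and] at h3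
        have h4 := h3 h0
        rw [Bool.not_eq_false, Qn.le_iff, Qn.val_zero, Pool.Agent.Helper13.FR.val_ofRQ] at h4
        exact h4
      · by_cases h01 : (nzl S.1 r).length = 1
        · obtain ⟨j, hj, -, hs⟩ := sum_one h01
          rw [hs]
          rcases lt_or_gt_of_ne hj with h | h
          · have h3 := ((le_upS S j (x j)).1 (h1 j).2).2 r hr h01 h
            rwa [le_div_iff_of_neg h, mul_comm] at h3
          · have h3 := ((loS_le S j (x j)).1 (h1 j).1).2 r hr h01 h
            rwa [div_le_iff₀ h, mul_comm] at h3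
        · apply h2
          rw [List.mem_filter, decide_eq_true_eq]
          exact ⟨hr, by omega⟩
    · intro j
      rw [abs_le]
      exact ⟨((loS_le S j (x j)).1 (h1 j).1).1, ((le_upS S j (x j)).1 (h1 j).2).1⟩
  · rintro ⟨h1, h2⟩
    refine ⟨?_, ?_⟩
    · intro j
      rw [loS_le, le_upS]
      have h3 := abs_le.1 (h2 j)
      refine ⟨⟨h3.1, ?_⟩, h3.2, ?_⟩
      · intro r hr h01 hj
        obtain ⟨i, hi, hi0, hs⟩ := sum_one h01
        have h4 : j = i := by
          by_contra hc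
          exact hj.ne' (hi0 j hc)
        subst h4
        have h5 := h1 r hr
        rw [hs] at h5
        rw [div_le_iff₀ hj, mul_comm]
        exact h5
      · intro r hr h01 hj
        obtain ⟨i, hi, hi0, hs⟩ := sum_one h01
        have h4 : j = i := by
          by_contra hc
          exact hj.ne (hi0 j hc)
        subst h4
        have h5 := h1 r hr
        rw [hs] at h5
        rw [le_div_iff_of_neg hj, mul_comm]
        exact h5
    · intro r hr
      rw [List.mem_filter] at hr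
      exact h1 r hr.1

theorem vol_cast {n m : ℕ} (h : n = m) (A : Set (Fin n → ℝ)) (B : Set (Fin m → ℝ))
    (hAB : ∀ x : Fin m → ℝ, (fun i : Fin n => x (Fin.cast h i)) ∈ A ↔ x ∈ B) : vol A = vol B := by
  subst h
  congr 1
  ext x
  exact hAB x

theorem dim_mkI (S : Sys) : dim (mkI S) = S.1 := by
  unfold dim mkI
  rw [List.length_map, List.length_range]

theorem get_mkI (S : Sys) (j : Fin (dim (mkI S))) :
    (mkI S).1[j] = (toRQ (loS S j), padRQ (ssize S) (toRQ (upS S j))) := by
  have h0 : (j : ℕ) < (mkI S).1.length := j.2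
  have h1 : (mkI S).1[j] = (mkI S).1[(j : ℕ)]'h0 := rfl
  rw [h1]
  unfold mkI
  rw [List.getElem_map, List.getElem_range]

theorem lo_mkI (htrr : TrrStmt) (S : Sys) (j : Fin (dim (mkI S))) :
    lo (mkI S) j = Qn.val (loS S j) := by
  unfold lo
  rw [get_mkI, htrr]

theorem up_mkI (htrr : TrrStmt) (S : Sys) (j : Fin (dim (mkI S))) :
    up (mkI S) j = Qn.val (upS S j) := by
  unfold up
  rw [get_mkI, val_padRQ, htrr]

theorem mkv (hbig : BigStmt) (htrr : TrrStmt) : MkvStmt := by
  intro S hS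
  refine ⟨?_, ?_, ?_⟩
  · intro hb
    have h1 : sol S = ∅ := by
      rw [Set.eq_empty_iff_forall_notMem]
      intro x hx
      unfold bad0 at hb
      rw [List.any_eq_true] at hb
      obtain ⟨r, hr, h2⟩ := hb
      rw [Bool.and_eq_true, decide_eq_true_eq, Bool.not_eq_true'] at h2
      have h3 := hx r hr
      rw [sum_zero h2.1] at h3
      have h4 : Qn.le (ofRQ r.2) Qn.zero = true := by
        rw [Qn.le_iff, Qn.val_zero, Pool.Agent.Helper13.FR.val_ofRQ]
        exact h3
      rw [h2.2] at h4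
      exact Bool.false_ne_true h4
    rw [h1]
    unfold vol
    rw [MeasureTheory.measure_empty, ENNReal.toReal_zero]
  · intro hb
    apply vol_cast (dim_mkI S)
    intro x
    have h2 := core S hb x
    constructor
    · intro hx
      refine (h2.1 ⟨?_, ?_⟩).1
      · intro j
        have h3 := hx.1 (Fin.cast (dim_mkI S).symm j)
        rw [lo_mkI htrr, up_mkI htrr] at h3
        exact h3
      · intro r hr
        have h3 := hx.2 r hr
        refine h3.trans (le_of_eq ?_)
        exact Fintype.sum_equiv (finCongr (dim_mkI S)) _ _ fun j => rfl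
    · intro hx
      have h3 := h2.2 ⟨hx, hbig S hS x hx⟩
      refine ⟨?_, ?_⟩
      · intro j
        rw [lo_mkI htrr, up_mkI htrr]
        exact h3.1 (Fin.cast (dim_mkI S) j)
      · intro r hr
        refine (h3.2 r hr).trans (le_of_eq ?_)
        exact (Fintype.sum_equiv (finCongr (dim_mkI S)) _ _ fun j => rfl).symm
  · unfold dense mkI
    simp only [nzl_length]

end Pool.Agent.Helper38.FR
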